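import Mathlib

/-!
# MP_e3b71d_lc: with independent values, moral auctions earn no more than truthful ones

For all `n`, all grids and all full-support independent distributions (regular or not, identical or
not) and all `α ∈ [0,1]`: `R_α = R_T`.
-/

namespace Pool.Agent.Results.MP_e3b71d_lc.MoralEqTruthful

open Finset Function

/-! ### Definitions -/

/-- The grid value `x ε` with `ε = 1/K`. -/
noncomputable def gv {K : ℕ} (x : Fin (K + 1)) : ℝ := (x.val : ℝ) / K

/-- Bid profiles. -/
abbrev Prof (n K : ℕ) := Fin n → Fin (K + 1)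

/-- Deterministic direct mechanisms; `alloc b = none` means no sale. -/
structure Mechanism (n K : ℕ) where
  alloc : Prof n K → Option (Fin n)
  pay : Prof n K → Fin n → ℝ
  ir : ∀ b i, pay b i ≤ if alloc b = some i then gv (b i) else 0
  npt : ∀ b i, 0 ≤ pay b i

/-- Profit of player `i` with true value `x` when the bids are `b`. -/
noncomputable def profit {n K : ℕ} (M : Mechanism n K) (i : Fin n) (x : Fin (K + 1))
    (b : Prof n K) : ℝ := (if M.alloc b = some i then gv x else 0) - M.pay b i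

/-- `α`-moral mechanisms. -/
def IsMoral {n K : ℕ} (α : ℝ) (M : Mechanism n K) : Prop :=
  ∀ (v : Prof n K) (i : Fin n) (z : Fin (K + 1)),
    0 < profit M i (v i) (update v i z) - profit M i (v i) v →
      profit M i (v i) (update v i z) - profit M i (v i) v ≤
        α * ∑ j ∈ univ.erase i, (profit M j (v j) v - profit M j (v j) (update v i z))

/-- Distributions with full support on the grid. -/
def IsDist {K : ℕ} (f : Fin (K + 1) → ℝ) : Prop := (∀ x, 0 < f x) ∧ ∑ x, f x = 1

/-- Expected revenue for independent values `v_i ∼ f_i` under truthful reporting. -/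
noncomputable def Rev {n K : ℕ} (f : Fin n → Fin (K + 1) → ℝ) (M : Mechanism n K) : ℝ :=
  ∑ v : Prof n K, (∏ i, f i (v i)) * ∑ i, M.pay v i

/-- `R_α`: supremum of the revenue over `α`-moral mechanisms (`R_0 = R_T`). -/
noncomputable def R {n K : ℕ} (f : Fin n → Fin (K + 1) → ℝ) (α : ℝ) : ℝ :=
  sSup {r | ∃ M : Mechanism n K, IsMoral α M ∧ r = Rev f M}

/-! ### Ironed virtual values -/

section iron

variable {K : ℕ} (f : Fin (K + 1) → ℝ)

/-- Tail sums. -/
noncomputable def tl (g : Fin (K + 1) → ℝ) (m : Fin (K + 1)) : ℝ := ∑ x ∈ univ.filter (m ≤ ·), g x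

lemma gv_nonneg (x : Fin (K + 1)) : 0 ≤ gv x := by unfold gv; positivity

lemma gv_le_one (x : Fin (K + 1)) : gv x ≤ 1 := by
  unfold gv
  have h : (x.val : ℝ) ≤ K := by exact_mod_cast Nat.lt_succ_iff.1 x.isLt
  exact div_le_one_of_le₀ h (by positivity)

lemma gv_mono {x y : Fin (K + 1)} (h : x ≤ y) : gv x ≤ gv y := by
  unfold gv
  have : (x.val : ℝ) ≤ y.val := by exact_mod_cast h
  gcongr

/-- The feasible set for the ironing problem. -/
def Feas (ψ : Fin (K + 1) → ℝ) : Prop :=
  (∀ m, gv m * tl f m ≤ tl (fun x => f x * ψ x) m) ∧ tl (fun x => f x * ψ x) 0 = 0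

noncomputable def En (ψ : Fin (K + 1) → ℝ) : ℝ := ∑ x, f x * ψ x ^ 2

lemma tl_zero (g : Fin (K + 1) → ℝ) : tl g 0 = ∑ x, g x := by
  unfold tl
  congr 1
  ext x
  simp

lemma tl_le_one (hf : IsDist f) (m : Fin (K + 1)) : tl f m ≤ 1 := by
  unfold tl
  rw [← hf.2]
  exact sum_le_sum_of_subset_of_nonneg (filter_subset _ _) fun x _ _ => (hf.1 x).le

lemma tl_nonneg (hf : IsDist f) (m : Fin (K + 1)) : 0 ≤ tl f m :=
  sum_nonneg fun x _ => (hf.1 x).le

lemma exists_min (hK : 1 ≤ K) (hf : IsDist f) :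
    ∃ ψ, Feas f ψ ∧ ∀ ψ', Feas f ψ' → En f ψ ≤ En f ψ' := by
  -- a feasible point
  obtain ⟨ψ0, h0⟩ : ∃ ψ, Feas f ψ := by
    have hne : (0 : Fin (K + 1)) ≠ Fin.last K := by
      intro h
      have := congrArg Fin.val h
      simp at this
      omega
    refine ⟨fun x => if x = Fin.last K then 1 / f (Fin.last K) else if x = 0 then -1 / f 0 else 0,
      ?_, ?_⟩
    · intro m
      have hR : gv m * tl f m ≤ 1 := mul_le_one₀ (gv_le_one m) (tl_nonneg f hf m) (tl_le_one f hf m)
      by_cases hm : m = 0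
      · subst hm
        have : gv (0 : Fin (K + 1)) = 0 := by simp [gv]
        rw [this, zero_mul, tl_zero]
        rw [Finset.sum_eq_add_of_mem (0 : Fin (K + 1)) (Fin.last K) (mem_univ _) (mem_univ _) hne]
        · simp only [if_neg hne, if_true]
          rw [mul_div_cancel₀ _ (hf.1 0).ne', mul_div_cancel₀ _ (hf.1 _).ne']
          norm_num
        · intro c _ hc
          simp [hc.1, hc.2]
      · refine hR.trans (le_of_eq ?_)
        unfold tl
        rw [Finset.sum_eq_single (Fin.last K)]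
        · simp only [if_true]
          rw [mul_div_cancel₀ _ (hf.1 _).ne']
        · intro b hb hbl
          have hb0 : b ≠ 0 := by
            rintro rfl
            rw [mem_filter] at hb
            exact hm (Fin.le_zero_iff.1 hb.2)
          simp [hbl, hb0]
        · intro h
          exact absurd (mem_filter.2 ⟨mem_univ _, Fin.le_last m⟩) h
    · rw [tl_zero, Finset.sum_eq_add_of_mem (0 : Fin (K + 1)) (Fin.last K) (mem_univ _)
        (mem_univ _) hne]
      · simp only [if_neg hne, if_true]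
        rw [mul_div_cancel₀ _ (hf.1 0).ne', mul_div_cancel₀ _ (hf.1 _).ne']
        norm_num
      · intro c _ hc
        simp [hc.1, hc.2]
  have hcontT : ∀ m, Continuous fun ψ : Fin (K + 1) → ℝ => tl (fun x => f x * ψ x) m := by
    intro m
    unfold tl
    fun_prop
  have hcontE : Continuous (En f) := by
    unfold En
    fun_prop
  obtain ⟨c, hc, hcf⟩ : ∃ c : ℝ, 0 < c ∧ ∀ x, c ≤ f x := by
    obtain ⟨x0, -, hx0⟩ := Finset.exists_min_image (univ : Finset (Fin (K + 1))) f
      ⟨0, mem_univ _⟩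
    exact ⟨f x0, hf.1 x0, fun x => hx0 x (mem_univ x)⟩
  set S : Set (Fin (K + 1) → ℝ) := {ψ | Feas f ψ ∧ En f ψ ≤ En f ψ0} with hS
  have hclosed : IsClosed S := by
    have : S = (⋂ m, {ψ : Fin (K + 1) → ℝ | gv m * tl f m ≤ tl (fun x => f x * ψ x) m}) ∩
        {ψ | tl (fun x => f x * ψ x) 0 = 0} ∩ {ψ | En f ψ ≤ En f ψ0} := by
      ext ψ
      simp only [hS, Feas, Set.mem_ofPred_eq, Set.mem_inter_iff, Set.mem_iInter]
    rw [this]
    refine IsClosed.inter (IsClosed.inter (isClosed_iInter fun m => ?_) ?_) ?_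
    · exact isClosed_le continuous_const (hcontT m)
    · exact isClosed_eq (hcontT 0) continuous_const
    · exact isClosed_le hcontE continuous_const
  have hE0 : 0 ≤ En f ψ0 := sum_nonneg fun x _ => mul_nonneg (hf.1 x).le (sq_nonneg _)
  have hbdd : Bornology.IsBounded S := by
    rw [Metric.isBounded_iff_subset_closedBall 0]
    refine ⟨En f ψ0 / c + 1, fun ψ hψ => ?_⟩
    rw [mem_closedBall_zero_iff, pi_norm_le_iff_of_nonneg (by positivity)]
    intro x
    have h1 : f x * ψ x ^ 2 ≤ En f ψ0 := by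
      refine le_trans ?_ hψ.2
      exact single_le_sum (f := fun x => f x * ψ x ^ 2)
        (fun y _ => mul_nonneg (hf.1 y).le (sq_nonneg _)) (mem_univ x)
    have h2 : c * ψ x ^ 2 ≤ En f ψ0 := (mul_le_mul_of_nonneg_right (hcf x) (sq_nonneg _)).trans h1
    have h3 : ψ x ^ 2 ≤ En f ψ0 / c := by
      rw [le_div_iff₀ hc]; linarith
    rw [Real.norm_eq_abs]
    have h4 : |ψ x| ^ 2 = ψ x ^ 2 := sq_abs _
    nlinarith [abs_nonneg (ψ x), sq_nonneg (|ψ x| - 1)]
  have hcomp : IsCompact S := Metric.isCompact_of_isClosed_isBounded hclosed hbdd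
  obtain ⟨ψ, hψ, hmin⟩ := hcomp.exists_isMinOn ⟨ψ0, h0, le_rfl⟩ hcontE.continuousOn
  refine ⟨ψ, hψ.1, fun ψ' h' => ?_⟩
  by_cases hE : En f ψ' ≤ En f ψ0
  · exact hmin ⟨h', hE⟩
  · exact hψ.2.trans (not_le.1 hE).le

/-- The perturbation. -/
noncomputable def pert (ψ : Fin (K + 1) → ℝ) (k : Fin K) (δ : ℝ) (x : Fin (K + 1)) : ℝ :=
  ψ x + (if x = k.castSucc then δ / f k.castSucc else 0) -
    if x = k.succ then δ / f k.succ else 0

lemma tl_pert (hf : IsDist f) (ψ : Fin (K + 1) → ℝ) (k : Fin K) (δ : ℝ) (m : Fin (K + 1)) :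
    tl (fun x => f x * pert f ψ k δ x) m =
      tl (fun x => f x * ψ x) m - if m = k.succ then δ else 0 := by
  have h1 : ∀ x, f x * pert f ψ k δ x = f x * ψ x + (if x = k.castSucc then δ else 0) -
      if x = k.succ then δ else 0 := by
    intro x
    unfold pert
    have ha := (hf.1 k.castSucc).ne'
    have hb := (hf.1 k.succ).ne'
    by_cases h2 : x = k.castSucc
    · have h3 : x ≠ k.succ := by rw [h2]; exact (Fin.castSucc_lt_succ (i := k)).ne
      rw [if_pos h2, if_neg h3, if_pos h2, if_neg h3, h2]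
      field_simp
      ring
    · by_cases h3 : x = k.succ
      · rw [if_neg h2, if_pos h3, if_neg h2, if_pos h3, h3]
        field_simp
        ring
      · rw [if_neg h2, if_neg h3, if_neg h2, if_neg h3]
        ring
  unfold tl
  rw [sum_congr rfl fun x _ => h1 x, sum_sub_distrib, sum_add_distrib, sum_ite_eq', sum_ite_eq']
  simp only [mem_filter, mem_univ, true_and]
  have hlt : k.castSucc < k.succ := Fin.castSucc_lt_succ
  by_cases hm : m ≤ k.castSucc
  · rw [if_pos hm, if_pos (hm.trans hlt.le), if_neg (by rintro rfl; exact absurd hm (not_le.2 hlt))]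
    ring
  · by_cases hm2 : m ≤ k.succ
    · have : m = k.succ := by
        apply Fin.ext
        have h3 : ¬ m.val ≤ k.val := hm
        have h4 : m.val ≤ k.val + 1 := hm2
        simp only [Fin.val_succ]
        omega
      rw [if_neg hm, if_pos hm2, if_pos this]
      ring
    · rw [if_neg hm, if_neg hm2, if_neg (by rintro rfl; exact hm2 le_rfl)]
      ring

lemma En_pert (hf : IsDist f) (ψ : Fin (K + 1) → ℝ) (k : Fin K) (δ : ℝ) :
    En f (pert f ψ k δ) = En f ψ + 2 * δ * (ψ k.castSucc - ψ k.succ) +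
      δ ^ 2 * (1 / f k.castSucc + 1 / f k.succ) := by
  have ha := (hf.1 k.castSucc).ne'
  have hb := (hf.1 k.succ).ne'
  have h1 : ∀ x, f x * pert f ψ k δ x ^ 2 = f x * ψ x ^ 2 +
      (if x = k.castSucc then 2 * δ * ψ k.castSucc + δ ^ 2 / f k.castSucc else 0) +
      if x = k.succ then -2 * δ * ψ k.succ + δ ^ 2 / f k.succ else 0 := by
    intro x
    unfold pert
    by_cases h2 : x = k.castSucc
    · have h3 : x ≠ k.succ := by rw [h2]; exact (Fin.castSucc_lt_succ (i := k)).ne
      rw [if_pos h2, if_neg h3, if_pos h2, if_neg h3, h2]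
      field_simp
      ring
    · by_cases h3 : x = k.succ
      · rw [if_neg h2, if_pos h3, if_neg h2, if_pos h3, h3]
        field_simp
        ring
      · rw [if_neg h2, if_neg h3, if_neg h2, if_neg h3]
        ring
  unfold En
  rw [sum_congr rfl fun x _ => h1 x, sum_add_distrib, sum_add_distrib, sum_ite_eq', sum_ite_eq']
  simp only [mem_univ, if_true]
  ring

/-- Ironed virtual values. -/
lemma exists_iron (hK : 1 ≤ K) (hf : IsDist f) : ∃ ψ : Fin (K + 1) → ℝ,
    (∀ m, gv m * tl f m ≤ tl (fun x => f x * ψ x) m) ∧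
    ∀ U : Finset (Fin (K + 1)), U.Nonempty → (∀ x ∈ U, ∀ y, y ∉ U → ψ y < ψ x) →
      ∃ m ∈ U, U = univ.filter (m ≤ ·) ∧ tl (fun x => f x * ψ x) m = gv m * tl f m := by
  obtain ⟨ψ, hψ, hmin⟩ := exists_min f hK hf
  have hb : ∀ k : Fin K, 0 < 1 / f k.castSucc + 1 / f k.succ := fun k =>
    add_pos (one_div_pos.2 (hf.1 _)) (one_div_pos.2 (hf.1 _))
  -- monotonicity of neighbours
  have hmono1 : ∀ k : Fin K, ψ k.castSucc ≤ ψ k.succ := by
    intro k
    by_contra hcon
    push Not at hcon
    set a := ψ k.castSucc - ψ k.succ with ha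
    set b := 1 / f k.castSucc + 1 / f k.succ with hbb
    have hb0 : 0 < b := hb k
    have hfe : Feas f (pert f ψ k (-(a / b))) := by
      refine ⟨fun m => ?_, ?_⟩
      · rw [tl_pert f hf]
        have := hψ.1 m
        split_ifs
        · have : 0 ≤ a / b := div_nonneg (by rw [ha]; linarith) hb0.le
          linarith
        · linarith
      · rw [tl_pert f hf, hψ.2, if_neg (Fin.succ_ne_zero k).symm, sub_zero]
    have h1 := hmin _ hfe
    rw [En_pert f hf, ← ha, ← hbb] at h1
    have ha0 : 0 < a := by rw [ha]; linarith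
    have h2 : 2 * -(a / b) * a + (-(a / b)) ^ 2 * b = -(a ^ 2 / b) := by
      field_simp
      ring
    have h3 : 0 < a ^ 2 / b := by positivity
    linarith
  have hmono : Monotone ψ := by
    refine Fin.monotone_iff_le_succ.2 fun k => hmono1 k
  -- tightness where `ψ` increases
  have htight : ∀ k : Fin K, ψ k.castSucc < ψ k.succ →
      tl (fun x => f x * ψ x) k.succ = gv k.succ * tl f k.succ := by
    intro k hk
    by_contra hne
    have hlt : gv k.succ * tl f k.succ < tl (fun x => f x * ψ x) k.succ :=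
      lt_of_le_of_ne (hψ.1 _) (Ne.symm hne)
    set a := ψ k.succ - ψ k.castSucc with ha
    set b := 1 / f k.castSucc + 1 / f k.succ with hbb
    have hb0 : 0 < b := hb k
    have ha0 : 0 < a := by rw [ha]; linarith
    set s := tl (fun x => f x * ψ x) k.succ - gv k.succ * tl f k.succ with hs
    have hs0 : 0 < s := by rw [hs]; linarith
    set δ := min s (a / b) with hδ
    have hδ0 : 0 < δ := lt_min hs0 (div_pos ha0 hb0)
    have hfe : Feas f (pert f ψ k δ) := by
      refine ⟨fun m => ?_, ?_⟩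
      · rw [tl_pert f hf]
        have := hψ.1 m
        split_ifs with hm
        · have h1 : δ ≤ s := min_le_left _ _
          rw [hm]
          linarith
        · linarith
      · rw [tl_pert f hf, hψ.2, if_neg (Fin.succ_ne_zero k).symm, sub_zero]
    have h1 := hmin _ hfe
    rw [En_pert f hf, ← hbb] at h1
    have h2 : ψ k.castSucc - ψ k.succ = -a := by rw [ha]; ring
    rw [h2] at h1
    have h3 : δ * b ≤ a := by
      have : δ ≤ a / b := min_le_right _ _
      rwa [le_div_iff₀ hb0] at this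
    have h4 : δ ^ 2 * b ≤ δ * a := by nlinarith
    nlinarith
  refine ⟨ψ, hψ.1, fun U hU hsep => ?_⟩
  set m := U.min' hU with hm
  have hmU : m ∈ U := U.min'_mem hU
  have hUeq : U = univ.filter (m ≤ ·) := by
    ext x
    simp only [mem_filter, mem_univ, true_and]
    constructor
    · intro hx; exact U.min'_le x hx
    · intro hx
      by_contra hxU
      exact absurd (hmono hx) (not_le.2 (hsep m hmU x hxU))
  refine ⟨m, hmU, hUeq, ?_⟩
  rcases Fin.eq_zero_or_eq_succ m with h0 | ⟨k, hk⟩
  · rw [h0, hψ.2]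
    simp [gv]
  · have hkU : k.castSucc ∉ U := by
      intro h
      have h1 : m ≤ k.castSucc := U.min'_le _ h
      rw [hk] at h1
      exact absurd h1 (not_le.2 Fin.castSucc_lt_succ)
    rw [hk]
    refine htight k ?_
    rw [← hk]
    exact hsep m hmU _ hkU

/-- The mean constraint. -/
lemma mean_le (hf : IsDist f) {ψ : Fin (K + 1) → ℝ}
    (hψ : ∀ m, gv m * tl f m ≤ tl (fun x => f x * ψ x) m) (p : ℝ) (A : Fin (K + 1) → ℝ)
    (hA : Antitone A) :
    ∑ x, f x * (if p ≤ gv x then max p (A x) - max (ψ x) (A x) else 0) ≤ 0 := by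
  classical
  set U := univ.filter fun x : Fin (K + 1) => p ≤ gv x ∧ A x < p with hU
  have h1 : ∀ x, f x * (if p ≤ gv x then max p (A x) - max (ψ x) (A x) else 0) ≤
      if x ∈ U then f x * (p - ψ x) else 0 := by
    intro x
    by_cases hx : x ∈ U
    · rw [if_pos hx]
      rw [hU, mem_filter] at hx
      rw [if_pos hx.2.1, max_eq_left hx.2.2.le]
      refine mul_le_mul_of_nonneg_left ?_ (hf.1 x).le
      linarith [le_max_left (ψ x) (A x)]
    · rw [if_neg hx]
      rw [hU, mem_filter] at hx
      by_cases hp : p ≤ gv x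
      · rw [if_pos hp]
        have hpa : p ≤ A x := by
          by_contra hcon
          exact hx ⟨mem_univ _, hp, not_le.1 hcon⟩
        rw [max_eq_right hpa]
        refine mul_nonpos_of_nonneg_of_nonpos (hf.1 x).le ?_
        linarith [le_max_right (ψ x) (A x)]
      · rw [if_neg hp, mul_zero]
  refine (sum_le_sum fun x _ => h1 x).trans ?_
  rw [← sum_filter, filter_mem_eq_inter, univ_inter]
  rcases U.eq_empty_or_nonempty with h | h
  · rw [h, sum_empty]
  · set m := U.min' h with hm
    have hmU : m ∈ U := U.min'_mem h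
    have hmU' := hmU
    rw [hU, mem_filter] at hmU'
    have hUeq : U = univ.filter (m ≤ ·) := by
      ext x
      constructor
      · intro hx
        rw [mem_filter]
        exact ⟨mem_univ _, U.min'_le x hx⟩
      · intro hx
        rw [mem_filter] at hx
        rw [hU, mem_filter]
        exact ⟨mem_univ _, hmU'.2.1.trans (gv_mono hx.2), (hA hx.2).trans_lt hmU'.2.2⟩
    have h2 : ∑ x ∈ U, f x * (p - ψ x) = p * tl f m - tl (fun x => f x * ψ x) m := by
      rw [hUeq]
      unfold tl
      rw [mul_sum, ← sum_sub_distrib]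
      exact sum_congr rfl fun x _ => by ring
    rw [h2]
    have h3 := hψ m
    have h4 := mul_le_mul_of_nonneg_right hmU'.2.1 (tl_nonneg f hf m)
    linarith

end iron

/-! ### Averaging over one coordinate -/

section avg

variable {n K : ℕ}

lemma avg {f : Fin n → Fin (K + 1) → ℝ} (hf : ∀ i, IsDist (f i)) (i : Fin n)
    (h : Prof n K → ℝ) :
    ∑ v : Prof n K, (∏ j, f j (v j)) * h v =
      ∑ v : Prof n K, (∏ j, f j (v j)) * ∑ z, f i z * h (update v i z) := by
  have e : (Prof n K × Fin (K + 1)) ≃ (Prof n K × Fin (K + 1)) :=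
    { toFun := fun q => (update q.1 i q.2, q.1 i)
      invFun := fun q => (update q.1 i q.2, q.1 i)
      left_inv := fun q => by simp
      right_inv := fun q => by simp }
  have hw : ∀ (v : Prof n K) (z : Fin (K + 1)), (∏ j, f j (update v i z j)) * f i (v i) =
      (∏ j, f j (v j)) * f i z := by
    intro v z
    rw [← mul_prod_erase univ _ (mem_univ i), ← mul_prod_erase univ (fun j => f j (v j))
      (mem_univ i)]
    rw [update_self]
    have : ∏ j ∈ univ.erase i, f j (update v i z j) = ∏ j ∈ univ.erase i, f j (v j) := by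
      refine prod_congr rfl fun j hj => ?_
      rw [update_of_ne (ne_of_mem_erase hj)]
    rw [this]
    ring
  have h1 : ∑ v : Prof n K, (∏ j, f j (v j)) * ∑ z, f i z * h (update v i z) =
      ∑ q : Prof n K × Fin (K + 1), (∏ j, f j (q.1 j)) * f i q.2 * h (update q.1 i q.2) := by
    rw [Fintype.sum_prod_type]
    refine sum_congr rfl fun v _ => ?_
    rw [mul_sum]
    exact sum_congr rfl fun z _ => by ring
  have h2 : ∑ v : Prof n K, (∏ j, f j (v j)) * h v =
      ∑ q : Prof n K × Fin (K + 1), (∏ j, f j (q.1 j)) * f i q.2 * h q.1 := by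
    rw [Fintype.sum_prod_type]
    refine sum_congr rfl fun v _ => ?_
    show (∏ j, f j (v j)) * h v = ∑ z, (∏ j, f j (v j)) * f i z * h v
    rw [← sum_mul, ← mul_sum, (hf i).2, mul_one]
  rw [h1, h2]
  refine Fintype.sum_bijective (fun q : Prof n K × Fin (K + 1) => (update q.1 i q.2, q.1 i))
    ?_ _ _ ?_
  · refine Function.Involutive.bijective ?_
    intro q
    simp
  · intro q
    simp only [update_idem, update_eq_self]
    rw [hw]

lemma prob_nonneg {f : Fin n → Fin (K + 1) → ℝ} (hf : ∀ i, IsDist (f i)) (v : Prof n K) :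
    0 ≤ ∏ j, f j (v j) := prod_nonneg fun j _ => ((hf j).1 _).le

end avg

/-! ### The pointwise inequality -/

section pointwise

variable {n K : ℕ} (ψ : Fin n → Fin (K + 1) → ℝ)

/-- Players are ordered by decreasing value, ties by index. -/
def key (v : Prof n K) (i : Fin n) : ℕ := (K - (v i).val) * n + i.val

lemma key_inj (v : Prof n K) {i j : Fin n} (h : key v i = key v j) : i = j := by
  unfold key at h
  have h1 := congrArg (· % n) h
  simp only [Nat.mul_add_mod_self_right] at h1
  rw [Nat.mod_eq_of_lt i.isLt, Nat.mod_eq_of_lt j.isLt] at h1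
  exact Fin.ext h1

lemma val_ge_of_key {v : Prof n K} {i j : Fin n} (h : key v i < key v j) : v j ≤ v i := by
  unfold key at h
  by_contra hcon
  push Not at hcon
  have h1 : (v i).val < (v j).val := hcon
  have h2 := (v j).isLt
  have h3 : K - (v j).val + 1 ≤ K - (v i).val := by omega
  have h4 := Nat.mul_le_mul_right n h3
  have h5 := j.isLt
  rw [Nat.add_mul] at h4
  omega

/-- Highest ironed virtual value (or `0`) among players above `i`. -/
noncomputable def Ab (v : Prof n K) (i : Fin n) : ℝ :=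
  (univ.filter fun j => key v j < key v i).fold max 0 fun j => ψ j (v j)

/-- Highest ironed virtual value (or `0`). -/
noncomputable def Mx (v : Prof n K) : ℝ := univ.fold max 0 fun j => ψ j (v j)

lemma Ab_nonneg (v : Prof n K) (i : Fin n) : 0 ≤ Ab ψ v i := by
  unfold Ab; rw [le_fold_max]; exact Or.inl le_rfl

lemma Mx_nonneg (v : Prof n K) : 0 ≤ Mx ψ v := by
  unfold Mx; rw [le_fold_max]; exact Or.inl le_rfl

lemma le_Ab {v : Prof n K} {i j : Fin n} (h : key v j < key v i) : ψ j (v j) ≤ Ab ψ v i := by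
  unfold Ab; rw [le_fold_max]
  exact Or.inr ⟨j, mem_filter.2 ⟨mem_univ _, h⟩, le_rfl⟩

lemma le_Mx (v : Prof n K) (i : Fin n) : ψ i (v i) ≤ Mx ψ v := by
  unfold Mx; rw [le_fold_max]; exact Or.inr ⟨i, mem_univ _, le_rfl⟩

lemma Ab_le_Ab {v : Prof n K} {i j : Fin n} (h : key v j < key v i) :
    max (ψ j (v j)) (Ab ψ v j) ≤ Ab ψ v i := by
  refine max_le (le_Ab ψ h) ?_
  unfold Ab
  rw [fold_max_le]
  refine ⟨by rw [le_fold_max]; exact Or.inl le_rfl, fun l hl => ?_⟩
  rw [le_fold_max]
  exact Or.inr ⟨l, mem_filter.2 ⟨mem_univ _, (mem_filter.1 hl).2.trans h⟩, le_rfl⟩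

lemma Ab_le_Mx (v : Prof n K) (i : Fin n) : Ab ψ v i ≤ Mx ψ v := by
  unfold Ab
  rw [fold_max_le]
  exact ⟨Mx_nonneg ψ v, fun l _ => le_Mx ψ v l⟩

/-- Increments below `h` telescope. -/
lemma incr (v : Prof n K) (h : Fin n) (T : Finset (Fin n)) :
    (∀ i ∈ T, key v h < key v i) → ∀ B, (∀ i ∈ T, max (ψ i (v i)) (Ab ψ v i) ≤ B) →
      max (ψ h (v h)) (Ab ψ v h) ≤ B →
      ∑ i ∈ T, (max (ψ i (v i)) (Ab ψ v i) - Ab ψ v i) ≤ B - max (ψ h (v h)) (Ab ψ v h) := by
  classical
  induction T using Finset.induction_on_max_value (key v) with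
  | empty => intro _ B _ hB; simpa using hB
  | insert a s has hle ih =>
    intro hT B hB _
    rw [sum_insert has]
    have h1 := ih (fun i hi => hT i (mem_insert_of_mem hi)) (Ab ψ v a) (fun i hi => by
      refine Ab_le_Ab ψ (lt_of_le_of_ne (hle i hi) ?_)
      intro e
      exact has (key_inj v e ▸ hi)) (Ab_le_Ab ψ (hT a (mem_insert_self _ _)))
    have h2 := hB a (mem_insert_self _ _)
    linarith

lemma pointwise (v : Prof n K) (P : Fin n → ℝ) (h : Fin n) (hh : P h ≤ gv (v h))
    (htop : ∀ i, P i ≤ gv (v i) → i ≠ h → key v h < key v i) :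
    P h ≤ Mx ψ v + ∑ i, (if P i ≤ gv (v i) then max (P i) (Ab ψ v i) -
      max (ψ i (v i)) (Ab ψ v i) else 0) := by
  classical
  rw [← sum_filter]
  have hmem : h ∈ univ.filter fun i => P i ≤ gv (v i) := mem_filter.2 ⟨mem_univ _, hh⟩
  rw [← add_sum_erase _ _ hmem]
  set T := (univ.filter fun i => P i ≤ gv (v i)).erase h with hT
  have h1 := incr ψ v h T (fun i hi => by
    rw [hT, mem_erase, mem_filter] at hi
    exact htop i hi.2.2 hi.1) (Mx ψ v) (fun i _ => max_le (le_Mx ψ v i) (Ab_le_Mx ψ v i))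
    (max_le (le_Mx ψ v h) (Ab_le_Mx ψ v h))
  have h2 : -(∑ i ∈ T, (max (ψ i (v i)) (Ab ψ v i) - Ab ψ v i)) ≤
      ∑ i ∈ T, (max (P i) (Ab ψ v i) - max (ψ i (v i)) (Ab ψ v i)) := by
    rw [← sum_neg_distrib]
    refine sum_le_sum fun i _ => ?_
    linarith [le_max_right (P i) (Ab ψ v i)]
  have h3 := le_max_left (P h) (Ab ψ v h)
  linarith

lemma Ab_antitone (v : Prof n K) (i : Fin n) : Antitone fun z => Ab ψ (update v i z) i := by
  intro z z' hz
  simp only
  unfold Ab
  rw [fold_max_le]
  refine ⟨by rw [le_fold_max]; exact Or.inl le_rfl, fun j hj => ?_⟩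
  rw [mem_filter] at hj
  have hji : j ≠ i := by rintro rfl; exact lt_irrefl _ hj.2
  rw [le_fold_max]
  refine Or.inr ⟨j, mem_filter.2 ⟨mem_univ _, ?_⟩, ?_⟩
  · have h1 := hj.2
    unfold key at h1 ⊢
    rw [update_of_ne hji, update_self] at h1 ⊢
    refine h1.trans_le ?_
    have : K - z'.val ≤ K - z.val := Nat.sub_le_sub_left hz K
    have := Nat.mul_le_mul_right n this
    omega
  · rw [update_of_ne hji, update_of_ne hji]

end pointwise

/-! ### Moral mechanisms: prices -/

section prices

variable {n K : ℕ} (M : Mechanism n K)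

lemma pay_eq_zero {b : Prof n K} {j : Fin n} (h : M.alloc b ≠ some j) : M.pay b j = 0 := by
  have h1 := M.ir b j
  rw [if_neg h] at h1
  exact le_antisymm h1 (M.npt b j)

lemma profit_eq_zero {b : Prof n K} {j : Fin n} (h : M.alloc b ≠ some j) (x : Fin (K + 1)) :
    profit M j x b = 0 := by
  unfold profit
  rw [if_neg h, pay_eq_zero M h, sub_zero]

lemma profit_win {b : Prof n K} {j : Fin n} (h : M.alloc b = some j) (x : Fin (K + 1)) :
    profit M j x b = gv x - M.pay b j := by
  unfold profit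
  rw [if_pos h]

lemma moral_one {α : ℝ} (h0 : 0 ≤ α) (h1 : α ≤ 1) (hM : IsMoral α M) : IsMoral 1 M := by
  intro v i z hG
  have h := hM v i z hG
  have hS : 0 ≤ ∑ j ∈ univ.erase i, (profit M j (v j) v - profit M j (v j) (update v i z)) := by
    by_contra hcon
    push Not at hcon
    have := mul_nonpos_of_nonneg_of_nonpos h0 hcon.le
    linarith
  refine h.trans ?_
  exact mul_le_mul_of_nonneg_right h1 hS

lemma pay_le_pay (hM : IsMoral 1 M) {v : Prof n K} {i : Fin n} {z : Fin (K + 1)}
    (h1 : M.alloc v = some i) (h2 : M.alloc (update v i z) = some i) :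
    M.pay v i ≤ M.pay (update v i z) i := by
  by_contra hcon
  push Not at hcon
  have hg : profit M i (v i) (update v i z) - profit M i (v i) v =
      M.pay v i - M.pay (update v i z) i := by
    rw [profit_win M h1, profit_win M h2]; ring
  have h := hM v i z (by rw [hg]; linarith)
  rw [sum_eq_zero, mul_zero, hg] at h
  · linarith
  · intro j hj
    have hji : j ≠ i := ne_of_mem_erase hj
    rw [profit_eq_zero M, profit_eq_zero M, sub_zero]
    · rw [h2]; intro e; exact hji (Option.some.inj e).symm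
    · rw [h1]; intro e; exact hji (Option.some.inj e).symm

lemma pay_eq_pay (hM : IsMoral 1 M) {v : Prof n K} {i : Fin n} {z : Fin (K + 1)}
    (h1 : M.alloc v = some i) (h2 : M.alloc (update v i z) = some i) :
    M.pay v i = M.pay (update v i z) i := by
  refine le_antisymm (pay_le_pay M hM h1 h2) ?_
  have h3 : update (update v i z) i (v i) = v := by simp
  have := pay_le_pay M hM (v := update v i z) (i := i) (z := v i) h2 (by rw [h3]; exact h1)
  rwa [h3] at this

open Classical in
/-- The price offered to player `i`. -/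
noncomputable def price (v : Prof n K) (i : Fin n) : ℝ :=
  if h : ∃ z, M.alloc (update v i z) = some i then M.pay (update v i h.choose) i else 2

lemma price_update (v : Prof n K) (i : Fin n) (z : Fin (K + 1)) :
    price M (update v i z) i = price M v i := by
  unfold price
  simp only [update_idem]

lemma price_nonneg (v : Prof n K) (i : Fin n) : 0 ≤ price M v i := by
  unfold price
  split_ifs
  · exact M.npt _ _
  · norm_num

lemma price_win (hM : IsMoral 1 M) {v : Prof n K} {i : Fin n} (h : M.alloc v = some i) :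
    price M v i = M.pay v i := by
  have hex : ∃ z, M.alloc (update v i z) = some i := ⟨v i, by rw [update_eq_self]; exact h⟩
  unfold price
  rw [dif_pos hex]
  exact (pay_eq_pay M hM h hex.choose_spec).symm

lemma price_offer (hM : IsMoral 1 M) {v : Prof n K} {j : Fin n} (h : price M v j < gv (v j))
    (hj : M.alloc v ≠ some j) :
    ∃ w, M.alloc v = some w ∧ gv (v j) - price M v j ≤ gv (v w) - M.pay v w := by
  have hex : ∃ z, M.alloc (update v j z) = some j := by
    by_contra hcon
    unfold price at h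
    rw [dif_neg hcon] at h
    have := gv_le_one (v j)
    linarith
  have hpr : price M v j = M.pay (update v j hex.choose) j := by
    unfold price
    rw [dif_pos hex]
  have hz := hex.choose_spec
  set z := hex.choose
  have hg : profit M j (v j) (update v j z) - profit M j (v j) v = gv (v j) - price M v j := by
    rw [profit_win M hz, profit_eq_zero M hj, hpr, sub_zero]
  have hm := hM v j z (by rw [hg]; linarith)
  rw [hg, one_mul] at hm
  have hoth : ∀ l ∈ univ.erase j, profit M l (v l) (update v j z) = 0 := by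
    intro l hl
    refine profit_eq_zero M ?_ _
    rw [hz]; intro e; exact (ne_of_mem_erase hl) (Option.some.inj e).symm
  rcases hv : M.alloc v with _ | w
  · exfalso
    rw [sum_eq_zero] at hm
    · linarith
    · intro l hl
      rw [hoth l hl, profit_eq_zero M (by rw [hv]; exact fun e => by simp at e), sub_zero]
  · refine ⟨w, rfl, ?_⟩
    have hwj : w ≠ j := by rintro rfl; exact hj hv
    rw [sum_eq_single w] at hm
    · rw [hoth w (mem_erase.2 ⟨hwj, mem_univ _⟩), profit_win M hv, sub_zero] at hm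
      exact hm
    · intro l hl hlw
      rw [hoth l hl, profit_eq_zero M (by rw [hv]; intro e; exact hlw (Option.some.inj e).symm),
        sub_zero]
    · intro hw
      exact absurd (mem_erase.2 ⟨hwj, mem_univ _⟩) hw

lemma sum_pay_le (hM : IsMoral 1 M) (ψ : Fin n → Fin (K + 1) → ℝ) (v : Prof n K) :
    ∑ i, M.pay v i ≤ Mx ψ v + ∑ i, (if price M v i ≤ gv (v i) then
      max (price M v i) (Ab ψ v i) - max (ψ i (v i)) (Ab ψ v i) else 0) := by
  classical
  set S := univ.filter fun i => price M v i ≤ gv (v i) with hS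
  have hpt : ∀ h ∈ S, (∀ i ∈ S, key v h ≤ key v i) → price M v h ≤
      Mx ψ v + ∑ i, (if price M v i ≤ gv (v i) then
      max (price M v i) (Ab ψ v i) - max (ψ i (v i)) (Ab ψ v i) else 0) := by
    intro h hh hmin
    refine pointwise ψ v (price M v) h (mem_filter.1 hh).2 fun i hi hih => ?_
    refine lt_of_le_of_ne (hmin i (mem_filter.2 ⟨mem_univ _, hi⟩)) fun e => hih (key_inj v e).symm
  rcases hv : M.alloc v with _ | w
  · have h0 : ∑ i, M.pay v i = 0 := sum_eq_zero fun i _ =>
      pay_eq_zero M (by rw [hv]; exact fun e => by simp at e)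
    rw [h0]
    rcases S.eq_empty_or_nonempty with hSe | hSn
    · rw [← sum_filter, ← hS, hSe, sum_empty, add_zero]
      exact Mx_nonneg ψ v
    · obtain ⟨h, hh, hmin⟩ := S.exists_min_image (key v) hSn
      exact (price_nonneg M v h).trans (hpt h hh hmin)
  · have h0 : ∑ i, M.pay v i = M.pay v w := by
      rw [sum_eq_single w]
      · intro l _ hlw
        exact pay_eq_zero M (by rw [hv]; intro e; exact hlw (Option.some.inj e).symm)
      · intro h; exact absurd (mem_univ _) h
    rw [h0]
    have hpw := price_win M hM hv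
    have hir : M.pay v w ≤ gv (v w) := by
      have := M.ir v w
      rwa [if_pos hv] at this
    have hwS : w ∈ S := mem_filter.2 ⟨mem_univ _, by rw [hpw]; exact hir⟩
    obtain ⟨h, hh, hmin⟩ := S.exists_min_image (key v) ⟨w, hwS⟩
    refine le_trans ?_ (hpt h hh hmin)
    by_cases hhw : h = w
    · rw [hhw, hpw]
    · have hk : key v h < key v w := lt_of_le_of_ne (hmin w hwS) fun e => hhw (key_inj v e)
      have hvv := gv_mono (val_ge_of_key hk)
      have hhp : price M v h ≤ gv (v h) := (mem_filter.1 hh).2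
      rcases hhp.lt_or_eq with hlt | heq
      · obtain ⟨w', hw', hle⟩ := price_offer M hM hlt (by
          rw [hv]; intro e; exact hhw (Option.some.inj e).symm)
        rw [hv] at hw'
        rw [← Option.some.inj hw'] at hle
        linarith
      · rw [heq]; linarith

/-- Upper bound for the revenue of moral mechanisms. -/
lemma rev_le (hM : IsMoral 1 M) {f : Fin n → Fin (K + 1) → ℝ} (hf : ∀ i, IsDist (f i))
    {ψ : Fin n → Fin (K + 1) → ℝ}
    (hψ : ∀ i m, gv m * tl (f i) m ≤ tl (fun x => f i x * ψ i x) m) :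
    Rev f M ≤ ∑ v : Prof n K, (∏ i, f i (v i)) * Mx ψ v := by
  have h1 : Rev f M ≤ ∑ v : Prof n K, (∏ i, f i (v i)) * (Mx ψ v +
      ∑ i, (if price M v i ≤ gv (v i) then
      max (price M v i) (Ab ψ v i) - max (ψ i (v i)) (Ab ψ v i) else 0)) :=
    sum_le_sum fun v _ => mul_le_mul_of_nonneg_left (sum_pay_le M hM ψ v) (prob_nonneg hf v)
  refine h1.trans ?_
  simp only [mul_add, sum_add_distrib, mul_sum]
  rw [add_le_iff_nonpos_right, sum_comm]
  refine sum_nonpos fun i _ => ?_
  rw [avg hf i (fun v => if price M v i ≤ gv (v i) then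
      max (price M v i) (Ab ψ v i) - max (ψ i (v i)) (Ab ψ v i) else 0)]
  refine sum_nonpos fun v _ => mul_nonpos_of_nonneg_of_nonpos (prob_nonneg hf v) ?_
  have h2 := mean_le (f i) (hf i) (hψ i) (price M v i) (fun z => Ab ψ (update v i z) i)
    (Ab_antitone ψ v i)
  refine le_trans (le_of_eq ?_) h2
  refine sum_congr rfl fun z _ => ?_
  rw [price_update, update_self]

end prices

/-! ### The optimal truthful mechanism -/

section myerson

variable {n K : ℕ} (ψ : Fin n → Fin (K + 1) → ℝ)

/-- Player `i` wins at `v`: highest positive ironed virtual value, ties to the lowest index. -/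
def Win (v : Prof n K) (i : Fin n) : Prop :=
  0 < ψ i (v i) ∧ ∀ j, (j < i → ψ j (v j) < ψ i (v i)) ∧ (i < j → ψ j (v j) ≤ ψ i (v i))

lemma win_unique {v : Prof n K} {i j : Fin n} (hi : Win ψ v i) (hj : Win ψ v j) : i = j := by
  rcases lt_trichotomy i j with h | h | h
  · exact absurd ((hj.2 i).1 h) (not_lt.2 ((hi.2 j).2 h))
  · exact h
  · exact absurd ((hi.2 j).1 h) (not_lt.2 ((hj.2 i).2 h))

open Classical in
/-- The winning values of player `i`. -/
noncomputable def Uw (v : Prof n K) (i : Fin n) : Finset (Fin (K + 1)) :=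
  univ.filter fun z => Win ψ (update v i z) i

lemma mem_Uw {v : Prof n K} {i : Fin n} {z : Fin (K + 1)} :
    z ∈ Uw ψ v i ↔ Win ψ (update v i z) i := by
  classical
  unfold Uw
  rw [mem_filter]
  exact ⟨fun h => h.2, fun h => ⟨mem_univ _, h⟩⟩

lemma Uw_update (v : Prof n K) (i : Fin n) (z : Fin (K + 1)) :
    Uw ψ (update v i z) i = Uw ψ v i := by
  ext x
  rw [mem_Uw, mem_Uw, update_idem]

lemma win_iff {v : Prof n K} {i : Fin n} : Win ψ v i ↔ v i ∈ Uw ψ v i := by
  rw [mem_Uw, update_eq_self]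

lemma Uw_sep (v : Prof n K) (i : Fin n) : ∀ x ∈ Uw ψ v i, ∀ y, y ∉ Uw ψ v i → ψ i y < ψ i x := by
  intro x hx y hy
  by_contra hcon
  push Not at hcon
  refine hy ?_
  rw [mem_Uw] at hx ⊢
  obtain ⟨h0, h1⟩ := hx
  rw [update_self] at h0
  refine ⟨by rw [update_self]; linarith, fun j => ?_⟩
  have h2 := h1 j
  rw [update_self] at h2 ⊢
  refine ⟨fun hj => ?_, fun hj => ?_⟩
  · have := h2.1 hj
    rw [update_of_ne hj.ne] at this ⊢
    linarith
  · have := h2.2 hj
    rw [update_of_ne hj.ne'] at this ⊢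
    linarith

open Classical in
/-- Threshold price. -/
noncomputable def thr (v : Prof n K) (i : Fin n) : ℝ :=
  if h : (Uw ψ v i).Nonempty then gv ((Uw ψ v i).min' h) else 0

lemma thr_update (v : Prof n K) (i : Fin n) (z : Fin (K + 1)) :
    thr ψ (update v i z) i = thr ψ v i := by
  unfold thr
  simp only [Uw_update]

lemma thr_le {v : Prof n K} {i : Fin n} {z : Fin (K + 1)} (h : z ∈ Uw ψ v i) :
    thr ψ v i ≤ gv z := by
  unfold thr
  rw [dif_pos ⟨z, h⟩]
  exact gv_mono (min'_le _ _ h)

lemma thr_eq {v : Prof n K} {i : Fin n} {m : Fin (K + 1)} (hm : m ∈ Uw ψ v i)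
    (hU : Uw ψ v i = univ.filter (m ≤ ·)) : thr ψ v i = gv m := by
  unfold thr
  rw [dif_pos ⟨m, hm⟩]
  congr 1
  refine le_antisymm (min'_le _ _ hm) ?_
  refine le_min' _ _ _ fun y hy => ?_
  rw [hU] at hy
  exact (mem_filter.1 hy).2

lemma thr_nonneg (v : Prof n K) (i : Fin n) : 0 ≤ thr ψ v i := by
  unfold thr
  split_ifs
  · exact gv_nonneg _
  · exact le_rfl

open Classical in
/-- The optimal mechanism. -/
noncomputable def Opt : Mechanism n K where
  alloc v := if h : ∃ i, Win ψ v i then some h.choose else none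
  pay v i := if Win ψ v i then thr ψ v i else 0
  ir := by
    intro v i
    by_cases h : Win ψ v i
    · have hex : ∃ i, Win ψ v i := ⟨i, h⟩
      have : hex.choose = i := win_unique ψ hex.choose_spec h
      rw [if_pos h, dif_pos hex, if_pos (by rw [this])]
      exact thr_le ψ ((win_iff ψ).1 h)
    · rw [if_neg h]
      have hx := gv_nonneg (v i)
      split_ifs <;> first | exact hx | exact le_rfl
  npt := by
    intro v i
    split_ifs
    · exact thr_nonneg ψ v i
    · exact le_rfl

lemma Opt_alloc {v : Prof n K} {i : Fin n} : (Opt ψ).alloc v = some i ↔ Win ψ v i := by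
  classical
  unfold Opt
  simp only
  constructor
  · intro h
    split_ifs at h with hex
    · rw [← Option.some.inj h]
      exact hex.choose_spec
  · intro h
    have hex : ∃ i, Win ψ v i := ⟨i, h⟩
    rw [dif_pos hex]
    exact congrArg some (win_unique ψ hex.choose_spec h)

open Classical in
lemma Opt_profit (v : Prof n K) (i : Fin n) (x : Fin (K + 1)) :
    profit (Opt ψ) i x v = if v i ∈ Uw ψ v i then gv x - thr ψ v i else 0 := by
  by_cases h : Win ψ v i
  · rw [profit_win _ ((Opt_alloc ψ).2 h), if_pos ((win_iff ψ).1 h)]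
    congr 1
    unfold Opt
    simp only
    rw [if_pos h]
  · rw [profit_eq_zero _ (fun e => h ((Opt_alloc ψ).1 e)), if_neg (fun e => h ((win_iff ψ).2 e))]

/-- Structure of the winning sets. -/
def Good (f : Fin n → Fin (K + 1) → ℝ) : Prop :=
  ∀ i, ∀ U : Finset (Fin (K + 1)), U.Nonempty → (∀ x ∈ U, ∀ y, y ∉ U → ψ i y < ψ i x) →
      ∃ m ∈ U, U = univ.filter (m ≤ ·) ∧
        tl (fun x => f i x * ψ i x) m = gv m * tl (f i) m

lemma Opt_moral {f : Fin n → Fin (K + 1) → ℝ} (hg : Good ψ f) (α : ℝ) : IsMoral α (Opt ψ) := by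
  classical
  intro v i z hG
  exfalso
  rw [Opt_profit, Opt_profit, Uw_update, thr_update, update_self] at hG
  by_cases h1 : v i ∈ Uw ψ v i
  · rw [if_pos h1] at hG
    have := thr_le ψ h1
    split_ifs at hG <;> linarith
  · rw [if_neg h1] at hG
    by_cases h2 : z ∈ Uw ψ v i
    · rw [if_pos h2] at hG
      obtain ⟨m, hm, hU, -⟩ := hg i _ ⟨z, h2⟩ (Uw_sep ψ v i)
      have h3 : ¬ m ≤ v i := by
        intro h
        refine h1 ?_
        rw [hU]
        exact mem_filter.2 ⟨mem_univ _, h⟩
      have h4 : thr ψ v i = gv m := thr_eq ψ hm hU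
      rw [h4] at hG
      have := gv_mono (not_le.1 h3).le
      linarith
    · rw [if_neg h2] at hG
      linarith

open Classical in
lemma sum_win (v : Prof n K) : ∑ i, (if Win ψ v i then ψ i (v i) else 0) = Mx ψ v := by
  by_cases hex : ∃ i, Win ψ v i
  · obtain ⟨i, hi⟩ := hex
    rw [sum_eq_single i]
    · rw [if_pos hi]
      refine le_antisymm (le_Mx ψ v i) ?_
      unfold Mx
      rw [fold_max_le]
      refine ⟨hi.1.le, fun j _ => ?_⟩
      rcases lt_trichotomy i j with h | h | h
      · exact (hi.2 j).2 h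
      · rw [h]
      · exact ((hi.2 j).1 h).le
    · intro j _ hj
      rw [if_neg (fun h => hj (win_unique ψ h hi))]
    · intro h; exact absurd (mem_univ _) h
  · rw [sum_eq_zero fun i _ => if_neg fun h => hex ⟨i, h⟩]
    refine le_antisymm (Mx_nonneg ψ v) ?_
    by_contra hcon
    push Not at hcon
    apply hex
    have h1 : ∃ i, 0 < ψ i (v i) := by
      by_contra hno
      push Not at hno
      refine absurd hcon (not_lt.2 ?_)
      unfold Mx
      rw [fold_max_le]
      exact ⟨le_rfl, fun j _ => hno j⟩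
    obtain ⟨i0, hi0⟩ := h1
    obtain ⟨i1, -, hi1⟩ := exists_max_image (univ : Finset (Fin n)) (fun i => ψ i (v i))
      ⟨i0, mem_univ _⟩
    set T := univ.filter fun i => ψ i (v i) = ψ i1 (v i1) with hT
    have hTn : T.Nonempty := ⟨i1, mem_filter.2 ⟨mem_univ _, rfl⟩⟩
    set i := T.min' hTn with hi
    have hiT : ψ i (v i) = ψ i1 (v i1) := (mem_filter.1 (T.min'_mem hTn)).2
    refine ⟨i, by rw [hiT]; exact hi0.trans_le (hi1 i0 (mem_univ _)), fun j => ⟨fun hj => ?_,
      fun _ => by rw [hiT]; exact hi1 j (mem_univ _)⟩⟩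
    refine lt_of_le_of_ne (by rw [hiT]; exact hi1 j (mem_univ _)) fun e => ?_
    have : i ≤ j := T.min'_le j (mem_filter.2 ⟨mem_univ _, e.trans hiT⟩)
    exact absurd this (not_le.2 hj)

lemma Opt_rev {f : Fin n → Fin (K + 1) → ℝ} (hf : ∀ i, IsDist (f i)) (hg : Good ψ f) :
    Rev f (Opt ψ) = ∑ v : Prof n K, (∏ i, f i (v i)) * Mx ψ v := by
  classical
  have hR : Rev f (Opt ψ) = ∑ v : Prof n K, (∏ i, f i (v i)) *
      ∑ i, (if Win ψ v i then thr ψ v i else 0) := by
    unfold Rev Opt
    rfl
  rw [hR]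
  simp only [← sum_win ψ, mul_sum]
  rw [sum_comm]
  conv_rhs => rw [sum_comm]
  refine sum_congr rfl fun i _ => ?_
  rw [avg hf i (fun v => if Win ψ v i then thr ψ v i else 0),
    avg hf i (fun v => if Win ψ v i then ψ i (v i) else 0)]
  refine sum_congr rfl fun v _ => ?_
  congr 1
  have h1 : ∀ z, Win ψ (update v i z) i ↔ z ∈ Uw ψ v i := fun z => (mem_Uw ψ).symm
  simp only [h1, thr_update, update_self, mul_ite, mul_zero]
  rw [← sum_filter, ← sum_filter, filter_mem_eq_inter, univ_inter]
  rcases (Uw ψ v i).eq_empty_or_nonempty with h | h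
  · rw [h, sum_empty, sum_empty]
  · obtain ⟨m, hm, hU, ht⟩ := hg i _ h (Uw_sep ψ v i)
    have h4 : thr ψ v i = gv m := thr_eq ψ hm hU
    rw [h4, hU, ← sum_mul]
    unfold tl at ht
    rw [mul_comm, ← ht]

end myerson

/-- **Moral auctions earn no more than truthful ones, for independent values.** For every number of
players `n`, every grid `{0, 1/K, …, 1}`, all independent full-support distributions (regular or
not, identical or not) and every `α ∈ [0,1]`, `R_α = R_T`; moreover a truthful mechanism attains the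
maximum revenue over all `α`-moral ones. -/
theorem result {n K : ℕ} (hK : 1 ≤ K) (f : Fin n → Fin (K + 1) → ℝ) (hf : ∀ i, IsDist (f i))
    (α : ℝ) (h0 : 0 ≤ α) (h1 : α ≤ 1) :
    R f α = R f 0 ∧ ∃ M₀ : Mechanism n K, IsMoral 0 M₀ ∧ Rev f M₀ = R f α ∧
      ∀ M : Mechanism n K, IsMoral α M → Rev f M ≤ Rev f M₀ := by
  choose ψ hψ1 hψ2 using fun i => exists_iron (f i) hK (hf i)
  have hg : Good ψ f := hψ2
  have hub : ∀ β : ℝ, 0 ≤ β → β ≤ 1 → ∀ M : Mechanism n K, IsMoral β M →
      Rev f M ≤ Rev f (Opt ψ) := by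
    intro β hβ0 hβ1 M hM
    rw [Opt_rev ψ hf hg]
    exact rev_le M (moral_one M hβ0 hβ1 hM) hf hψ1
  have hRe : ∀ β : ℝ, 0 ≤ β → β ≤ 1 → R f β = Rev f (Opt ψ) := by
    intro β hβ0 hβ1
    unfold R
    refine IsGreatest.csSup_eq ⟨⟨Opt ψ, Opt_moral ψ hg β, rfl⟩, ?_⟩
    rintro r ⟨M, hM, rfl⟩
    exact hub β hβ0 hβ1 M hM
  refine ⟨by rw [hRe α h0 h1, hRe 0 le_rfl zero_le_one], Opt ψ, Opt_moral ψ hg 0,
    (hRe α h0 h1).symm, fun M hM => hub α h0 h1 M hM⟩

end Pool.Agent.Results.MP_e3b71d_lc.MoralEqTruthful
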